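import Mathlib
import Pool.Agent.H95.TL.Rand

/-!
# Intrinsically `n`-linked tournaments of linear order

For every `n ≥ 2` and every `N ≥ 84 (n - 1)` there is a tournament (a digraph in which any two distinct
vertices are joined by exactly one arc) on `N` vertices which is intrinsically `n`-linked; an
intrinsically `n`-linked tournament has at least `3 n` vertices, so the linear order is the right one.
More generally, every digraph is intrinsically `n`-linked which contains vertices `x i`, `y i`
(`i < 42 (n - 1)`) with arcs `x i → y i` and `y i → x j` for `i ≠ j`; and all but a proportion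
`(1 - 2 ^ (-h ^ 2)) ^ ⌊N / h⌋`, `h = 84 (n - 1)`, of the labelled tournaments on `N` vertices are
intrinsically `n`-linked. In all cases the nonsplit link can be chosen such that one component forms a
nonsplit two-component link with each of the others, which have at most six vertices.

The arcs of a spatial embedding are arbitrary continuous injective arcs (tame or wild), and the spheres
in the definition of a nonsplit link are arbitrary embedded topological spheres; for the existence
results both choices are stronger than the tame ones.

The definitions `DirectedGraph`, `SpatialEmbedding`, `OrientedCycle`, `VertexDisjoint`, `Nonsplit` and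
`IntrinsicallyLinked` are those of the library module `N568.Dg.Defs`.
-/

set_option autoImplicit false

namespace Pool.Agent.Results.MP_4fe900_gt.LinearTournaments

open Filter Topology Pool.Agent.N568.Dg Pool.Agent.H95.TL

theorem result :
    -- tournaments of all orders `N ≥ 84 (n - 1)`
    (∀ n N : ℕ, 2 ≤ n → 84 * (n - 1) ≤ N →
      ∃ D : DirectedGraph, IsTournament D ∧ Nat.card D.V = N ∧ StarLinked n D) ∧
    -- the lower bound
    (∀ (n : ℕ) (D : DirectedGraph), IsTournament D → IntrinsicallyLinked n D →
      3 * n ≤ Nat.card D.V) ∧
    -- all digraphs with a doubled copy of the complete digraph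
    (∀ (n M : ℕ) (D : DirectedGraph), 2 ≤ n → 42 * (n - 1) ≤ M → Nonempty (Doubled D (Fin M)) →
      StarLinked n D) ∧
    -- almost all tournaments
    (∀ n : ℕ, 2 ≤ n →
      (∀ N : ℕ, (Nat.card {o : Lab N // ¬ StarLinked n (labTour o)} : ℝ) ≤
        (1 - 1 / 2 ^ ((84 * (n - 1)) ^ 2)) ^ (N / (84 * (n - 1))) * Nat.card (Lab N)) ∧
      Tendsto (fun N : ℕ => (Nat.card {o : Lab N // StarLinked n (labTour o)} : ℝ) /
        Nat.card (Lab N)) atTop (𝓝 1)) ∧
    -- the strong form of linkedness implies the plain one, spatial embeddings exist, and `labTour o`
    -- is a tournament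
    (∀ (n : ℕ) (D : DirectedGraph), StarLinked n D → IntrinsicallyLinked n D) ∧
    (∀ D : DirectedGraph, Nonempty (SpatialEmbedding D)) ∧
    (∀ (N : ℕ) (o : Lab N), IsTournament (labTour o)) := by
  refine ⟨?_, ?_, ?_, ?_, ?_, ?_, ?_⟩
  · intro n N hn hN
    refine ⟨tour N, tour_isTournament N, ?_, ?_⟩
    · change Nat.card (Fin N) = N
      exact Nat.card_fin N
    · exact main_fin hn le_rfl (tourDoubled (M := 42 * (n - 1)) (N := N) (by omega))
  · intro n D hD h
    exact three_mul_le hD h
  · intro n M D hn hM ⟨E⟩
    exact main_fin hn hM E
  · intro n hn
    exact ⟨few_exceptions hn, almost_all hn⟩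
  · intro n D h f
    obtain ⟨C, i₀, h1, h2, -⟩ := h f
    exact ⟨C, h1, h2⟩
  · exact exists_embedding
  · intro N o
    exact labTour_isTournament o

end Pool.Agent.Results.MP_4fe900_gt.LinearTournaments
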